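import Pool.Agent.Helper79.PN.Lem

set_option autoImplicit false

/-!
pn_mods BLX: the form `BL` applied to `(-H - 3 - s) f`.
-/

open scoped Classical

namespace Pool.Agent.Helper81.PN

open Pool.Agent.Helper79.PN

theorem sq_pa (P : Pen) (f : Lam → ℝ) (hf : Sq f) : Sq (pa P f) := by
  refine Summable.of_nonneg_of_le (fun K => sq_nonneg _) (fun K => ?_) hf
  unfold pa
  split_ifs
  · simp only [ne_eq, OfNat.ofNat_ne_zero, not_false_eq_true, zero_pow]
    exact sq_nonneg _
  · exact le_rfl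

theorem sq_pb (P : Pen) (f : Lam → ℝ) (hf : Sq f) : Sq (pb P f) := by
  refine Summable.of_nonneg_of_le (fun K => sq_nonneg _) (fun K => ?_) hf
  unfold pb
  split_ifs
  · exact le_rfl
  · simp only [ne_eq, OfNat.ofNat_ne_zero, not_false_eq_true, zero_pow]
    exact sq_nonneg _

theorem adj_pa_pb (P : Pen) (f : Lam → ℝ) (K : Lam) :
    adj f K = adj (pa P f) K + adj (pb P f) K := by
  unfold adj
  rw [← Finset.sum_add_distrib]
  apply Finset.sum_congr rfl
  intro i _
  have h : ∀ L, f L = pa P f L + pb P f L := by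
    intro L
    unfold pa pb
    split_ifs
    · rw [zero_add]
    · rw [add_zero]
  rw [h (K + e i), h (K - e i)]
  ring

theorem uu_T (hTT : ST_TT) (P : Pen) (s : ℝ) (f : Lam → ℝ) (hf : Sup P f) (w : Lam)
    (hw : IsT P w) : uu P s f w = -(s * pb P f w) - adj (pa P f) w := by
  obtain ⟨h1, h2, h3⟩ := hTT P w hw
  have h4 : adj (pb P f) w = 0 := by
    apply h3
    · intro K hK
      unfold pb
      split_ifs
      · exact hf K hK
      · rfl
    · intro K hK
      unfold pb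
      rw [if_neg hK]
  have h5 : pb P f w = f w := by unfold pb; rw [if_pos hw]
  unfold uu
  rw [ind_true h1, h2, adj_pa_pb P f w, h4, h5]
  ring

theorem sup_pa (P : Pen) (f : Lam → ℝ) (hf : Sup P f) : Sup P (pa P f) := by
  intro K hK
  unfold pa
  split_ifs
  · rfl
  · exact hf K hK

theorem sup_ng (P : Pen) (a : Lam → ℝ) (ha : Sup P a) : Sup P.mir (ng a) := by
  intro K hK
  unfold ng
  apply ha
  rw [← inv_mir']
  exact hK

theorem abs_ind (p : Prop) : |ind p| ≤ 1 := by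
  rw [abs_of_nonneg (ind_nonneg p)]
  exact ind_le_one p

theorem st_BLX (hSMT : ST_SMT) (hNB1 : ST_NB1) (hNB2 : ST_NB2) (hTT : ST_TT) (hPOS : ST_POS) :
    ST_BLX := by
  intro P s f hf hsup
  have hS := hSMT.2.1
  set a := pa P f with ha
  set b := pb P f with hb
  have hsa : Sq a := sq_pa P f hf
  have hsb : Sq b := sq_pb P f hf
  have hupa : Sup P a := sup_pa P f hsup
  have hadj : ∀ K, adj (ng a) (-K) = adj a K := by
    intro K
    unfold adj ng
    apply Finset.sum_congr rfl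
    intro i _
    rw [show -(-K + e i) = K - e i by abel, show -(-K - e i) = K + e i by abel]
    ring
  -- the pointwise identity
  have key : ∀ z : Lam × ZMod 5,
      (ind (X1 P z.1 z.2) * (uu P s f (z.1 + e (z.2 + 1)) * a (z.1 + e (z.2 - 2)) +
          uu P s f (z.1 + e (z.2 - 1)) * a (z.1 + e (z.2 + 2)) +
          uu P s f (z.1 + e (z.2 + 2) + e (z.2 - 2)) * a z.1) +
        ind (T1 P z.1 z.2) * (uu P s f z.1 * a (z.1 + e (z.2 + 1) + e (z.2 - 1)))) =
      -(s * (ind (X1 P z.1 z.2) * (b (z.1 + e (z.2 + 1)) * a (z.1 + e (z.2 - 2)) +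
          b (z.1 + e (z.2 - 1)) * a (z.1 + e (z.2 + 2)) +
          b (z.1 + e (z.2 + 2) + e (z.2 - 2)) * a z.1) +
        ind (T1 P z.1 z.2) * (b z.1 * a (z.1 + e (z.2 + 1) + e (z.2 - 1))))) -
      ((ind (X1 P z.1 z.2) * (a (z.1 + e (z.2 - 2)) * (a z.1 + a (z.1 + e (z.2 + 1) + e (z.2 - 2))) +
      a (z.1 + e (z.2 + 2)) * (a z.1 + a (z.1 + e (z.2 - 1) + e (z.2 + 2))) +
      a z.1 * (a (z.1 + e (z.2 + 2)) + a (z.1 + e (z.2 - 2)))) +
    ind (T1 P z.1 z.2) * (a (z.1 + e (z.2 + 1) + e (z.2 - 1)) *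
      (a (z.1 + e (z.2 + 1)) + a (z.1 + e (z.2 - 1))))) +
      (ind (X1 P z.1 z.2) * (a (z.1 + e (z.2 - 2)) * a (z.1 + e (z.2 + 1) + e (z.2 - 1)) +
      a (z.1 + e (z.2 + 2)) * a (z.1 + e (z.2 + 1) + e (z.2 - 1)) +
      a z.1 * a (z.1 + e (z.2 + 2) + e (z.2 - 2) + e z.2)) +
    ind (T1 P z.1 z.2) * (a (z.1 + e (z.2 + 1) + e (z.2 - 1)) * a (z.1 + e z.2)))) := by
    rintro ⟨X, m⟩
    simp only
    have hx : ind (X1 P X m) * (uu P s f (X + e (m + 1)) * a (X + e (m - 2)) +
          uu P s f (X + e (m - 1)) * a (X + e (m + 2)) +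
          uu P s f (X + e (m + 2) + e (m - 2)) * a X) =
        ind (X1 P X m) * ((-(s * b (X + e (m + 1))) - (a X + a (X + e (m + 1) + e (m - 2)) +
            a (X + e (m + 1) + e (m - 1)))) * a (X + e (m - 2)) +
          (-(s * b (X + e (m - 1))) - (a X + a (X + e (m - 1) + e (m + 2)) +
            a (X + e (m + 1) + e (m - 1)))) * a (X + e (m + 2)) +
          (-(s * b (X + e (m + 2) + e (m - 2))) - (a (X + e (m + 2) + e (m - 2) + e m) +
            a (X + e (m + 2)) + a (X + e (m - 2)))) * a X) := by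
      by_cases h : X1 P X m
      · obtain ⟨p1, p2, p3⟩ := hPOS P X m h
        have q1 := (hNB2 P _ _ p1).2.2.2.2.2.2 a hupa
        have q2 := (hNB2 P _ _ p2).2.2.2.2.2.2 a hupa
        have q3 := (hNB2 P.mir _ _ p3).2.2.2.2.2.2 (ng a) (sup_ng P a hupa)
        rw [add_sub_cancel_right, p1p2, p1m2] at q1
        rw [add_sub_cancel_right, m1p2, m1m2] at q2
        rw [hadj] at q3
        unfold ng at q3
        rw [show -(-(X + e (m + 2) + e (m - 2)) - e m) = X + e (m + 2) + e (m - 2) + e m by abel,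
          show -(-(X + e (m + 2) + e (m - 2)) + e (m + 2)) = X + e (m - 2) by abel,
          show -(-(X + e (m + 2) + e (m - 2)) + e (m - 2)) = X + e (m + 2) by abel] at q3
        have r1 := uu_T hTT P s f hsup (X + e (m + 1)) ⟨m + 1, Or.inr (Or.inl p1)⟩
        have r2 := uu_T hTT P s f hsup (X + e (m - 1)) ⟨m - 1, Or.inr (Or.inl p2)⟩
        have r3 := uu_T hTT P s f hsup (X + e (m + 2) + e (m - 2))
          ⟨m, Or.inr (Or.inr (Or.inl p3))⟩
        rw [← ha, ← hb] at r1 r2 r3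
        rw [r1, r2, r3, q1, q2, q3,
          show X + e (m - 1) + e (m + 1) = X + e (m + 1) + e (m - 1) by abel]
        ring
      · rw [ind_false h, zero_mul, zero_mul]
    have ht : ind (T1 P X m) * (uu P s f X * a (X + e (m + 1) + e (m - 1))) =
        ind (T1 P X m) * ((-(s * b X) - (a (X + e m) + a (X + e (m + 1)) + a (X + e (m - 1)))) *
          a (X + e (m + 1) + e (m - 1))) := by
      by_cases h : T1 P X m
      · have q := (hNB1 P _ _ h).2.2.2.2.2.2 a hupa
        have r := uu_T hTT P s f hsup X ⟨m, Or.inl h⟩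
        rw [← ha, ← hb] at r
        rw [r, q]
      · rw [ind_false h, zero_mul, zero_mul]
    rw [hx, ht]
    ring
  -- summability
  have c1 : ∀ z : Lam × ZMod 5, |ind (X1 P z.1 z.2)| ≤ 1 := fun z => abs_ind _
  have c2 : ∀ z : Lam × ZMod 5, |ind (T1 P z.1 z.2)| ≤ 1 := fun z => abs_ind _
  have sB : Summable fun z : Lam × ZMod 5 =>
      (ind (X1 P z.1 z.2) * (b (z.1 + e (z.2 + 1)) * a (z.1 + e (z.2 - 2)) +
          b (z.1 + e (z.2 - 1)) * a (z.1 + e (z.2 + 2)) +
          b (z.1 + e (z.2 + 2) + e (z.2 - 2)) * a z.1) +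
        ind (T1 P z.1 z.2) * (b z.1 * a (z.1 + e (z.2 + 1) + e (z.2 - 1)))) := by
    have h1 := hS b a _ (fun m => e (m + 1)) (fun m => e (m - 2)) hsb hsa c1
    have h2 := hS b a _ (fun m => e (m - 1)) (fun m => e (m + 2)) hsb hsa c1
    have h3 := hS b a _ (fun m => e (m + 2) + e (m - 2)) (fun _ => 0) hsb hsa c1
    have h4 := hS b a _ (fun _ => 0) (fun m => e (m + 1) + e (m - 1)) hsb hsa c2
    refine (((h1.add h2).add h3).add h4).congr ?_
    intro z
    simp only [add_zero, add_assoc]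
    ring
  have sS : Summable fun z : Lam × ZMod 5 =>
      (ind (X1 P z.1 z.2) * (a (z.1 + e (z.2 - 2)) * (a z.1 + a (z.1 + e (z.2 + 1) + e (z.2 - 2))) +
      a (z.1 + e (z.2 + 2)) * (a z.1 + a (z.1 + e (z.2 - 1) + e (z.2 + 2))) +
      a z.1 * (a (z.1 + e (z.2 + 2)) + a (z.1 + e (z.2 - 2)))) +
    ind (T1 P z.1 z.2) * (a (z.1 + e (z.2 + 1) + e (z.2 - 1)) *
      (a (z.1 + e (z.2 + 1)) + a (z.1 + e (z.2 - 1))))) := by
    have h1 := hS a a _ (fun m => e (m - 2)) (fun _ => 0) hsa hsa c1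
    have h2 := hS a a _ (fun m => e (m - 2)) (fun m => e (m + 1) + e (m - 2)) hsa hsa c1
    have h3 := hS a a _ (fun m => e (m + 2)) (fun _ => 0) hsa hsa c1
    have h4 := hS a a _ (fun m => e (m + 2)) (fun m => e (m - 1) + e (m + 2)) hsa hsa c1
    have h5 := hS a a _ (fun _ => 0) (fun m => e (m + 2)) hsa hsa c1
    have h6 := hS a a _ (fun _ => 0) (fun m => e (m - 2)) hsa hsa c1
    have h7 := hS a a _ (fun m => e (m + 1) + e (m - 1)) (fun m => e (m + 1)) hsa hsa c2
    have h8 := hS a a _ (fun m => e (m + 1) + e (m - 1)) (fun m => e (m - 1)) hsa hsa c2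
    refine (((((((h1.add h2).add h3).add h4).add h5).add h6).add h7).add h8).congr ?_
    intro z
    simp only [add_zero, add_assoc]
    ring
  have sZ : Summable fun z : Lam × ZMod 5 =>
      (ind (X1 P z.1 z.2) * (a (z.1 + e (z.2 - 2)) * a (z.1 + e (z.2 + 1) + e (z.2 - 1)) +
      a (z.1 + e (z.2 + 2)) * a (z.1 + e (z.2 + 1) + e (z.2 - 1)) +
      a z.1 * a (z.1 + e (z.2 + 2) + e (z.2 - 2) + e z.2)) +
    ind (T1 P z.1 z.2) * (a (z.1 + e (z.2 + 1) + e (z.2 - 1)) * a (z.1 + e z.2))) := by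
    have h1 := hS a a _ (fun m => e (m - 2)) (fun m => e (m + 1) + e (m - 1)) hsa hsa c1
    have h2 := hS a a _ (fun m => e (m + 2)) (fun m => e (m + 1) + e (m - 1)) hsa hsa c1
    have h3 := hS a a _ (fun _ => 0) (fun m => e (m + 2) + (e (m - 2) + e m)) hsa hsa c1
    have h4 := hS a a _ (fun m => e (m + 1) + e (m - 1)) (fun m => e m) hsa hsa c2
    refine (((h1.add h2).add h3).add h4).congr ?_
    intro z
    simp only [add_zero, add_assoc]
    ring
  unfold BL SL ZL
  rw [tsum_congr key, Summable.tsum_sub (sB.mul_left s).neg (sS.add sZ), tsum_neg,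
    tsum_mul_left, Summable.tsum_add sS sZ]

end Pool.Agent.Helper81.PN
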