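import Pool.Agent.Helper33.PM.Com
import Pool.Agent.Helper7.PW.INL
import Pool.Agent.Helper95.PN.Stmts

/-! Row MLOC. -/

set_option autoImplicit false

namespace Pool.Agent.Helper95.PW

open MeasureTheory Filter

theorem mloc_pd_smooth {g : R3 → ℝ} (hg : ContDiff ℝ (⊤ : ℕ∞) g) (i : Fin 3) :
    ContDiff ℝ (⊤ : ℕ∞) (pd i g) :=
  ((contDiff_infty_iff_fderiv.1 hg).2).clm_apply contDiff_const

theorem mloc_pd_cs {g : R3 → ℝ} (hg : HasCompactSupport g) (i : Fin 3) :
    HasCompactSupport (pd i g) :=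
  (hg.fderiv (𝕜 := ℝ)).comp_left (g := fun L : R3 →L[ℝ] ℝ => L (Pi.single i 1)) rfl

theorem mloc_lap_smooth {g : R3 → ℝ} (hg : ContDiff ℝ (⊤ : ℕ∞) g) :
    ContDiff ℝ (⊤ : ℕ∞) (lap g) := by
  unfold lap
  exact ContDiff.sum fun i _ => mloc_pd_smooth (mloc_pd_smooth hg i) i

theorem mloc_lap_cs {g : R3 → ℝ} (hg : HasCompactSupport g) : HasCompactSupport (lap g) := by
  have h : lap g = fun y => pd 0 (pd 0 g) y + pd 1 (pd 1 g) y + pd 2 (pd 2 g) y := by
    funext y
    unfold lap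
    rw [Fin.sum_univ_three]
  rw [h]
  exact ((mloc_pd_cs (mloc_pd_cs hg 0) 0).add (mloc_pd_cs (mloc_pd_cs hg 1) 1)).add
    (mloc_pd_cs (mloc_pd_cs hg 2) 2)

theorem mloc_mor_meas (s : ℝ) : Measurable (mor s) := by
  unfold mor
  exact measurable_const.div (((com_nr_meas.pow_const 2).add_const _).pow_const _)

theorem mloc_mor_nonneg (s : ℝ) (y : R3) : 0 ≤ mor s y := by
  unfold mor
  positivity

theorem mloc_mor_le {s : ℝ} (hs : 0 < s) (y : R3) :
    mor s y ≤ 15 / 2 * s ^ 4 / (s ^ 2) ^ (7 / 2 : ℝ) := by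
  unfold mor
  apply div_le_div_of_nonneg_left (by positivity) (by positivity)
  apply Real.rpow_le_rpow (by positivity) _ (by norm_num)
  have := sq_nonneg (nr y)
  linarith

theorem mloc_far_meas {M : ℕ} (X : Fin M → R3) (d : ℝ) : Measurable (far1 X d) := by
  unfold far1
  apply Finset.measurable_fun_sum
  intro j _
  have h : Measurable fun y : R3 => nr (y - X j) := com_nr_meas.comp (measurable_id.sub_const _)
  exact Measurable.ite (measurableSet_le measurable_const h) (h.const_div 1) measurable_const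

theorem mloc_far_nonneg {M : ℕ} (X : Fin M → R3) (d : ℝ) (y : R3) : 0 ≤ far1 X d y := by
  unfold far1
  refine Finset.sum_nonneg fun j _ => ?_
  split_ifs
  · exact div_nonneg zero_le_one (com_nr_nonneg _)
  · exact le_rfl

theorem mloc_near_nonneg {M : ℕ} (X : Fin M → R3) (d : ℝ) (y : R3) : 0 ≤ near2 X d y := by
  unfold near2
  refine Finset.sum_nonneg fun j _ => ?_
  split_ifs
  · positivity
  · exact le_rfl

theorem mloc_const {n : ℕ} (B : ℝ) (u : Wf n) : one (fun _ => B) u = B * (n * sq u) := by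
  unfold one sq
  rw [Finset.mul_sum, Finset.mul_sum]
  refine Finset.sum_congr rfl fun s _ => ?_
  rw [← integral_const_mul, ← integral_const_mul]
  congr 1
  funext x
  simp only [Finset.sum_const, Finset.card_univ, Fintype.card_fin, nsmul_eq_mul]
  ring

theorem mloc_lin {n : ℕ} {w w' : R3 → ℝ} {B : ℝ} (a b : ℝ) (hw : Measurable w)
    (hB : ∀ y, |w y| ≤ B) (hw' : Measurable w') (hB' : ∀ y, |w' y| ≤ B) {u : Wf n} (hu : Sm u) :
    one (fun y => a * w y + b * w' y) u = a * one w u + b * one w' u := by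
  unfold one
  rw [Finset.mul_sum, Finset.mul_sum, ← Finset.sum_add_distrib]
  refine Finset.sum_congr rfl fun s _ => ?_
  rw [← integral_const_mul, ← integral_const_mul, ← integral_add
    ((INL_int hw hB hu s).const_mul a) ((INL_int hw' hB' hu s).const_mul b)]
  congr 1
  funext x
  rw [Finset.sum_add_distrib, ← Finset.mul_sum, ← Finset.mul_sum]
  ring

theorem mloc_sum {n M : ℕ} {w : Fin M → R3 → ℝ} {B : ℝ} (hw : ∀ j, Measurable (w j))
    (hB : ∀ j y, |w j y| ≤ B) {u : Wf n} (hu : Sm u) :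
    one (fun y => ∑ j, w j y) u = ∑ j, one (w j) u := by
  unfold one
  rw [Finset.sum_comm]
  refine Finset.sum_congr rfl fun s _ => ?_
  rw [← integral_finsetSum _ fun j _ => INL_int (hw j) (hB j) hu s]
  congr 1
  funext x
  rw [Finset.sum_comm, Finset.sum_mul]

/-- the Hessian term -/
theorem mloc_hess {n : ℕ} {g : R3 → ℝ} {A : ℝ} (hg : ContDiff ℝ (⊤ : ℕ∞) g)
    (hs : ∀ (y : R3) (ξ : Fin 3 → ℝ),
      -(A * ∑ i, ξ i ^ 2) ≤ ∑ i, ∑ l, pd i (pd l g) y * ξ i * ξ l) {u : Wf n} (hu : Sm u) :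
    -(A * kin u) ≤
      ∑ s, ∑ k, ∑ i, ∑ l, ∫ x, pd i (pd l g) (x k) * (dv k i (u s) x * dv k l (u s) x) := by
  have e : kin u = ∑ s, ∑ k, ∑ i, ∫ x, dv k i (u s) x ^ 2 := by
    unfold kin sq
    rw [Finset.sum_comm]
    rw [show (∑ s, ∑ k : Fin n, ∑ i : Fin 3, ∫ x, dv k i (u s) x ^ 2) =
      ∑ k : Fin n, ∑ s, ∑ i : Fin 3, ∫ x, dv k i (u s) x ^ 2 from Finset.sum_comm]
    rw [Finset.sum_comm]
    refine Finset.sum_congr rfl fun k _ => ?_
    exact Finset.sum_comm
  rw [e, Finset.mul_sum, ← Finset.sum_neg_distrib]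
  refine Finset.sum_le_sum fun s _ => ?_
  rw [Finset.mul_sum, ← Finset.sum_neg_distrib]
  refine Finset.sum_le_sum fun k _ => ?_
  have hd : ∀ i, ContDiff ℝ (⊤ : ℕ∞) (dv k i (u s)) := fun i => com_dv_smooth k i _ (hu s).1
  have hc : ∀ i, HasCompactSupport (dv k i (u s)) := fun i => com_dv_cs k i _ (hu s).2
  have i1 : ∀ i, Integrable (fun x => dv k i (u s) x ^ 2) := fun i =>
    (com_memLp _ (hd i) (hc i)).integrable_sq
  have i2 : ∀ i l, Integrable (fun x : Cf n =>
      pd i (pd l g) (x k) * (dv k i (u s) x * dv k l (u s) x)) := fun i l => by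
    apply Continuous.integrable_of_hasCompactSupport
    · exact ((mloc_pd_smooth (mloc_pd_smooth hg l) i).continuous.comp (continuous_apply k)).mul
        ((hd i).continuous.mul (hd l).continuous)
    · exact ((hc i).mul_right).mul_left
  calc -(A * ∑ i, ∫ x, dv k i (u s) x ^ 2) = ∫ x, -(A * ∑ i, dv k i (u s) x ^ 2) := by
        rw [integral_neg, integral_const_mul, integral_finsetSum _ fun i _ => i1 i]
    _ ≤ ∫ x, ∑ i, ∑ l, pd i (pd l g) (x k) * (dv k i (u s) x * dv k l (u s) x) := by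
        apply integral_mono
        · exact ((integrable_finsetSum _ fun i _ => i1 i).const_mul A).neg
        · exact integrable_finsetSum _ fun i _ => integrable_finsetSum _ fun l _ => i2 i l
        · intro x
          have h := hs (x k) (fun i => dv k i (u s) x)
          refine h.trans (le_of_eq ?_)
          refine Finset.sum_congr rfl fun i _ => Finset.sum_congr rfl fun l _ => ?_
          ring
    _ = _ := by
        rw [integral_finsetSum _ fun i _ => integrable_finsetSum _ fun l _ => i2 i l]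
        refine Finset.sum_congr rfl fun i _ => ?_
        rw [integral_finsetSum _ fun l _ => i2 i l]

/-- the square root of the gradient -/
theorem mloc_grd {g : R3 → ℝ} {A : ℝ} (hA : 0 ≤ A) (h : ∀ i y, |pd i g y| ≤ A) (y : R3) :
    Real.sqrt (grd g y) ≤ 2 * A := by
  rw [Real.sqrt_le_left (by positivity)]
  unfold grd
  rw [Fin.sum_univ_three]
  have h1 : ∀ i, pd i g y ^ 2 ≤ A ^ 2 := fun i => by
    rw [← sq_abs]
    exact pow_le_pow_left₀ (abs_nonneg _) (h i y) 2
  have := h1 0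
  have := h1 1
  have := h1 2
  have := sq_nonneg A
  linarith

/-- pointwise bound for the attraction -/
theorem mloc_pt {M : ℕ} (X : Fin M → R3) (Z : Fin M → ℝ) {z d A : ℝ} (hd : 0 < d) (hA : 0 ≤ A)
    (hz : 0 ≤ z) (hZ0 : ∀ j, 0 ≤ Z j) (hZ : ∀ j, Z j ≤ z) {g : R3 → ℝ}
    (h : ∀ i y, |pd i g y| ≤ A) (y : R3) :
    ∑ j, Z j * (Real.sqrt (grd g y) / nr (y - X j) ^ 2) ≤
      2 * A * z * (near2 X d y + far1 X d y / d) := by
  unfold near2 far1
  rw [Finset.sum_div, ← Finset.sum_add_distrib, Finset.mul_sum]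
  refine Finset.sum_le_sum fun j _ => ?_
  have hs := mloc_grd hA h y
  have hs0 := Real.sqrt_nonneg (grd g y)
  have hn := com_nr_nonneg (y - X j)
  have h1 : Z j * (Real.sqrt (grd g y) / nr (y - X j) ^ 2) ≤
      2 * A * z * (1 / nr (y - X j) ^ 2) := by
    have h2 : Z j * Real.sqrt (grd g y) ≤ z * (2 * A) := mul_le_mul (hZ j) hs hs0 hz
    have h3 : 0 ≤ 1 / nr (y - X j) ^ 2 := by positivity
    calc Z j * (Real.sqrt (grd g y) / nr (y - X j) ^ 2)
        = (Z j * Real.sqrt (grd g y)) * (1 / nr (y - X j) ^ 2) := by ring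
      _ ≤ (z * (2 * A)) * (1 / nr (y - X j) ^ 2) := mul_le_mul_of_nonneg_right h2 h3
      _ = _ := by ring
  refine h1.trans (mul_le_mul_of_nonneg_left ?_ (by positivity))
  by_cases hj : nr (y - X j) < d
  · rw [if_pos hj]
    have : 0 ≤ (if d / 2 ≤ nr (y - X j) then 1 / nr (y - X j) else 0) / d := by
      split_ifs
      · positivity
      · rw [zero_div]
    linarith
  · have hj' : d ≤ nr (y - X j) := not_lt.1 hj
    rw [if_neg hj, if_pos (by linarith), zero_add, div_div]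
    apply div_le_div_of_nonneg_left zero_le_one (by nlinarith)
    nlinarith

theorem mloc_inv_int (hINT : ST_INTM) {n : ℕ} (a : R3) {v w : Cf n → ℝ}
    (hv : ContDiff ℝ (⊤ : ℕ∞) v) (hvc : HasCompactSupport v)
    (hw : ContDiff ℝ (⊤ : ℕ∞) w) (hwc : HasCompactSupport w) :
    Integrable (fun x : Cf n => (∑ k, 1 / nr (x k - a)) * (v x * w x)) := by
  have h := (hINT n 1 (fun _ => a) (fun _ => 1) v w hv hvc hw hwc).1
  refine h.congr (Eventually.of_forall fun x => ?_)
  show (∑ k, pot (fun _ : Fin 1 => a) (fun _ => 1) (x k)) * (v x * w x) = _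
  unfold pot
  simp

/-- the attraction term -/
theorem mloc_att (hATT : ST_ATTL) (hSTB : ST_STB) (hINT : ST_INTM) (hH : ST_HLOC) {n M : ℕ}
    (X : Fin M → R3) (Z : Fin M → ℝ) {z d A B : ℝ} (hd : 0 < d) (hSep : Sep X d) (hA : 0 ≤ A)
    (hz : 0 ≤ z) (hZ0 : ∀ j, 0 ≤ Z j) (hZ : ∀ j, Z j ≤ z) (hB : ∀ y, |far1 X d y| ≤ B)
    {g : R3 → ℝ} (hg : ContDiff ℝ (⊤ : ℕ∞) g) (hgc : HasCompactSupport g)
    (h : ∀ i y, |pd i g y| ≤ A) {u : Wf n} (hu : Sm u) :
    ∑ s, ∫ x, (∑ k, pot X Z (x k)) * (Pg g (u s) x * u s x) ≤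
      A * z * (one (near2 X d) u + one (far1 X d) u / d) := by
  have hP := (hSTB n g u hg hu).2.1
  have e1 : ∑ s, ∫ x, (∑ k, pot X Z (x k)) * (Pg g (u s) x * u s x) =
      ∑ j, Z j * ∑ s, ∫ x, (∑ k, 1 / nr (x k - X j)) * (Pg g (u s) x * u s x) := by
    simp only [Finset.mul_sum]
    rw [Finset.sum_comm]
    refine Finset.sum_congr rfl fun s _ => ?_
    simp only [← Finset.mul_sum, ← integral_const_mul]
    rw [← integral_finsetSum _ fun j _ =>
      (mloc_inv_int hINT (X j) (hP s).1 (hP s).2 (hu s).1 (hu s).2).const_mul (Z j)]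
    congr 1
    funext x
    unfold pot
    rw [Finset.sum_comm, Finset.sum_mul]
    refine Finset.sum_congr rfl fun j _ => ?_
    have f0 : (∑ k, Z j / nr (x k - X j)) = Z j * ∑ k, 1 / nr (x k - X j) := by
      rw [Finset.mul_sum]
      refine Finset.sum_congr rfl fun k _ => ?_
      ring
    rw [f0]
    exact mul_assoc _ _ _
  rw [e1]
  have e2 : ∑ j, Z j * ∑ s, ∫ x, (∑ k, 1 / nr (x k - X j)) * (Pg g (u s) x * u s x) ≤
      ∑ j, Z j * (1 / 2 * one (fun y => Real.sqrt (grd g y) / nr (y - X j) ^ 2) u) :=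
    Finset.sum_le_sum fun j _ => mul_le_mul_of_nonneg_left (hATT n g (X j) u hg hgc hu).2 (hZ0 j)
  refine e2.trans ?_
  have e3 : ∑ j, Z j * (1 / 2 * one (fun y => Real.sqrt (grd g y) / nr (y - X j) ^ 2) u) =
      1 / 2 * ∑ s, ∫ x, ∑ j, Z j *
        ((∑ k, Real.sqrt (grd g (x k)) / nr (x k - X j) ^ 2) * u s x ^ 2) := by
    have g1 : ∀ j, Z j * (1 / 2 * one (fun y => Real.sqrt (grd g y) / nr (y - X j) ^ 2) u) =
        1 / 2 * ∑ s, ∫ x, Z j *
          ((∑ k, Real.sqrt (grd g (x k)) / nr (x k - X j) ^ 2) * u s x ^ 2) := by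
      intro j
      have g2 : ∑ s, ∫ x, Z j *
          ((∑ k, Real.sqrt (grd g (x k)) / nr (x k - X j) ^ 2) * u s x ^ 2) =
          Z j * one (fun y => Real.sqrt (grd g y) / nr (y - X j) ^ 2) u := by
        unfold one
        rw [Finset.mul_sum]
        exact Finset.sum_congr rfl fun s _ => integral_const_mul _ _
      rw [g2]
      ring
    rw [Finset.sum_congr rfl fun j _ => g1 j, ← Finset.mul_sum, Finset.sum_comm]
    congr 1
    refine Finset.sum_congr rfl fun s _ => ?_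
    rw [integral_finsetSum _ fun j _ => ((hATT n g (X j) u hg hgc hu).1 s).const_mul (Z j)]
  rw [e3]
  have e4 : ∑ s, ∫ x, ∑ j, Z j *
        ((∑ k, Real.sqrt (grd g (x k)) / nr (x k - X j) ^ 2) * u s x ^ 2) ≤
      2 * A * z * (one (near2 X d) u + one (far1 X d) u / d) := by
    unfold one
    rw [Finset.sum_div, ← Finset.sum_add_distrib, Finset.mul_sum]
    refine Finset.sum_le_sum fun s _ => ?_
    have j1 := (hH.choose_spec.2 n M X d u hd hSep hu).1 s
    have j2 : Integrable (fun x : Cf n => (∑ k, far1 X d (x k)) * u s x ^ 2) :=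
      INL_int (mloc_far_meas X d) hB hu s
    rw [← integral_div, ← integral_add j1 (j2.div_const d), ← integral_const_mul]
    apply integral_mono
    · exact integrable_finsetSum _ fun j _ => ((hATT n g (X j) u hg hgc hu).1 s).const_mul (Z j)
    · exact (j1.add (j2.div_const d)).const_mul _
    · intro x
      have f1 : ∑ j, Z j * ((∑ k, Real.sqrt (grd g (x k)) / nr (x k - X j) ^ 2) * u s x ^ 2) =
          (∑ k, ∑ j, Z j * (Real.sqrt (grd g (x k)) / nr (x k - X j) ^ 2)) * u s x ^ 2 := by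
        rw [Finset.sum_comm, Finset.sum_mul]
        refine Finset.sum_congr rfl fun j _ => ?_
        rw [← mul_assoc, Finset.mul_sum]
      show ∑ j, Z j * ((∑ k, Real.sqrt (grd g (x k)) / nr (x k - X j) ^ 2) * u s x ^ 2) ≤
        2 * A * z * ((∑ k, near2 X d (x k)) * u s x ^ 2 + (∑ k, far1 X d (x k)) * u s x ^ 2 / d)
      rw [f1]
      have f2 : (∑ k, ∑ j, Z j * (Real.sqrt (grd g (x k)) / nr (x k - X j) ^ 2)) ≤
          ∑ k, 2 * A * z * (near2 X d (x k) + far1 X d (x k) / d) :=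
        Finset.sum_le_sum fun k _ => mloc_pt X Z hd hA hz hZ0 hZ h (x k)
      refine (mul_le_mul_of_nonneg_right f2 (sq_nonneg _)).trans (le_of_eq ?_)
      rw [← Finset.mul_sum, Finset.sum_add_distrib, ← Finset.sum_div]
      ring
  linarith

theorem st_MLOC (hMGS : ST_MGS) (hKID : ST_KID) (hREP : ST_REPL) (hATT : ST_ATTL)
    (hPGB : ST_PGB) (hPK : ST_PK) (hH : ST_HLOC) (hPAN : ST_PAN) (hSTB : ST_STB)
    (hINT : ST_INTM) : ST_MLOC := by
  intro z d hz hd
  obtain ⟨A, hA1, HA⟩ := hMGS d hd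
  obtain ⟨CK, hCK, HK⟩ := hPK
  obtain ⟨CH, hCH, HH⟩ := id hH
  have hA0 : 0 ≤ A := by linarith
  refine ⟨1 + z * A + z * (2 * A + 2 * A * z * CH) +
    z * (2 * A * z * (2 * CH / d ^ 2 + 2 * CK / d / d) + 2 * A * CK / d), by positivity, ?_⟩
  intro n M X Z E B0 hM1 hSep hZ0 hZ
  have hMr : (1:ℝ) ≤ M := by exact_mod_cast hM1
  have hn0 : (0:ℝ) ≤ n := Nat.cast_nonneg n
  have hM23 : (1:ℝ) ≤ (M : ℝ) ^ (2 / 3 : ℝ) := Real.one_le_rpow hMr (by norm_num)
  obtain ⟨V, hV⟩ : ∃ V : ℝ, V = n * (M : ℝ) ^ (2 / 3 : ℝ) := ⟨_, rfl⟩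
  have hnV : (n:ℝ) ≤ V := by
    rw [hV]
    exact le_mul_of_one_le_right hn0 hM23
  have hV0 : 0 ≤ V := hn0.trans hnV
  obtain ⟨D, hD⟩ : ∃ D : ℝ, D = 7 * A ^ 2 * n * (|B0| + CH * (|B0| + 2 * V / d ^ 2)) := ⟨_, rfl⟩
  have hD0 : 0 ≤ D := by rw [hD]; positivity
  refine ⟨2 * z * Real.sqrt D + 1, by positivity, ?_⟩
  intro u hu hsq hkB s hs hsd
  rw [← hV]
  obtain ⟨g, hgdef⟩ : ∃ g : R3 → ℝ, g = mG X d s := ⟨_, rfl⟩
  have hS : MorS X A d s g := by rw [hgdef]; exact HA M X s hSep hs hsd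
  have hsm := hS.sm
  have hcs := hS.cs
  have hP := (hSTB n g u hsm hu).2.1
  -- numbers
  obtain ⟨hnear, hN2⟩ := HH n M X d u hd hSep hu
  have hk0 := com_kin_nonneg u
  have hp0 := com_pair_nonneg u
  have hs0 := com_sq_nonneg u
  have hN20 : 0 ≤ one (near2 X d) u := com_one_nonneg _ (mloc_near_nonneg X d) u
  have hF0 : 0 ≤ one (far1 X d) u := com_one_nonneg _ (mloc_far_nonneg X d) u
  obtain ⟨Bf, hBf⟩ : ∃ Bf : ℝ, Bf = CK * (M : ℝ) ^ (2 / 3 : ℝ) / d := ⟨_, rfl⟩
  have hfar : ∀ y, |far1 X d y| ≤ Bf := fun y => by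
    rw [abs_of_nonneg (mloc_far_nonneg X d y), hBf]
    exact HK M X d y hd hSep
  have hBf0 : 0 ≤ Bf := (abs_nonneg _).trans (hfar 0)
  have hF : one (far1 X d) u ≤ 2 * CK / d * V := by
    have h1 : one (far1 X d) u ≤ one (fun _ => Bf) u :=
      INL_mono (mloc_far_meas X d) hfar measurable_const (fun y => by
        rw [abs_of_nonneg hBf0]) (fun y => (le_abs_self _).trans (hfar y)) hu
    rw [mloc_const] at h1
    have h2 : Bf * (n * sq u) ≤ Bf * (n * 2) :=
      mul_le_mul_of_nonneg_left (mul_le_mul_of_nonneg_left hsq hn0) hBf0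
    have h3 : Bf * (n * 2) = 2 * CK / d * V := by
      rw [hBf, hV]
      ring
    linarith
  have hN2' : one (near2 X d) u ≤ CH * (kin u + 2 * V / d ^ 2) := by
    refine hN2.trans (mul_le_mul_of_nonneg_left ?_ hCH.le)
    apply add_le_add le_rfl
    apply div_le_div_of_nonneg_right _ (by positivity)
    nlinarith
  -- the identity
  obtain ⟨R, hR⟩ : ∃ R : ℝ, R = ∑ s, ∫ x, Pg g (u s) x * (hmM X Z (u s) x - E * u s x) :=
    ⟨_, rfl⟩
  have hRid : R = (∑ s, ∫ x, Pg g (u s) x * (-(∑ k, ∑ i, dv k i (dv k i (u s)) x))) +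
      (∑ s, ∫ x, rep x * (Pg g (u s) x * u s x)) -
      ∑ s, ∫ x, (∑ k, pot X Z (x k)) * (Pg g (u s) x * u s x) := by
    rw [hR, ← Finset.sum_add_distrib, ← Finset.sum_sub_distrib]
    refine Finset.sum_congr rfl fun s _ => ?_
    obtain ⟨q1, q2, _, _⟩ := hINT n M X Z (Pg g (u s)) (u s) (hP s).1 (hP s).2 (hu s).1 (hu s).2
    have m1 := com_memLp _ (hP s).1 (hP s).2
    have m2 := com_memLp _ (hu s).1 (hu s).2
    have m3 : MemLp (fun x : Cf n => ∑ k, ∑ i, dv k i (dv k i (u s)) x) 2 volume :=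
      memLp_finsetSum _ fun k _ => memLp_finsetSum _ fun i _ =>
        com_memLp _ (com_dv_smooth k i _ (com_dv_smooth k i _ (hu s).1))
          (com_dv_cs k i _ (com_dv_cs k i _ (hu s).2))
    have j1 : Integrable (fun x => Pg g (u s) x * (-(∑ k, ∑ i, dv k i (dv k i (u s)) x))) :=
      m1.integrable_mul m3.neg
    have j2 : Integrable (fun x => Pg g (u s) x * u s x) := m1.integrable_mul m2
    have j3 : ∫ x, Pg g (u s) x * u s x = 0 := by
      have h1 := hPAN n g (u s) (u s) hsm (hu s).1 (hu s).2 (hu s).1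
      have h2 : ∫ x, u s x * Pg g (u s) x = ∫ x, Pg g (u s) x * u s x := by
        congr 1
        funext x
        ring
      rw [h2] at h1
      linarith
    have e : (fun x => Pg g (u s) x * (hmM X Z (u s) x - E * u s x)) = fun x =>
        (Pg g (u s) x * (-(∑ k, ∑ i, dv k i (dv k i (u s)) x)) +
          rep x * (Pg g (u s) x * u s x)) -
        ((∑ k, pot X Z (x k)) * (Pg g (u s) x * u s x) + E * (Pg g (u s) x * u s x)) := by
      funext x
      unfold hmM
      ring
    have j12 : Integrable (fun x => Pg g (u s) x * (-(∑ k, ∑ i, dv k i (dv k i (u s)) x)) +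
        rep x * (Pg g (u s) x * u s x)) := j1.add q2
    have q12 : Integrable (fun x => (∑ k, pot X Z (x k)) * (Pg g (u s) x * u s x) +
        E * (Pg g (u s) x * u s x)) := q1.add (j2.const_mul E)
    rw [e, integral_sub j12 q12, integral_add j1 q2,
      integral_add q1 (j2.const_mul E), integral_const_mul, j3]
    ring
  have hkid := hKID n g u hsm hu
  have hhess := mloc_hess hsm hS.hs hu
  have hrep := hREP n g A u hsm hcs hA0 hS.hs hu
  have hatt := mloc_att hATT hSTB hINT hH X Z hd hSep hA0 hz hZ0 hZ hfar hsm hcs hS.d1 hu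
  have hRb : |R| ≤ Real.sqrt D * Real.sqrt (resM X Z E u) := by
    have h1 := INL_cauchy (f := fun s => Pg g (u s))
      (h := fun s x => hmM X Z (u s) x - E * u s x) hP
      (fun s => (innm_hm_memLp hINT X Z _ (hu s).1 (hu s).2).sub
        ((com_memLp _ (hu s).1 (hu s).2).const_mul E))
    rw [← hR] at h1
    refine h1.trans ?_
    apply mul_le_mul_of_nonneg_right _ (Real.sqrt_nonneg _)
    apply Real.sqrt_le_sqrt
    refine (hPGB n M X d A g u hd hSep hA0 hsm hS.d1 hS.lp hu).trans ?_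
    rw [hD]
    apply mul_le_mul_of_nonneg_left _ (by positivity)
    have h2 : kin u ≤ |B0| := hkB.trans (le_abs_self _)
    apply add_le_add h2
    refine hN2'.trans (mul_le_mul_of_nonneg_left ?_ hCH.le)
    linarith
  -- bound for the sum
  obtain ⟨ll, hll⟩ : ∃ ll : R3 → ℝ, ll = lap (lap g) := ⟨_, rfl⟩
  have hllc : Continuous ll := by rw [hll]; exact (mloc_lap_smooth (mloc_lap_smooth hsm)).continuous
  obtain ⟨B1, hB1⟩ := hllc.bounded_above_of_compact_support
    (by rw [hll]; exact mloc_lap_cs (mloc_lap_cs hcs))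
  have hB1' : ∀ y, |ll y| ≤ B1 := fun y => by
    rw [← Real.norm_eq_abs]; exact hB1 y
  have hB10 : 0 ≤ B1 := (abs_nonneg _).trans (hB1' 0)
  obtain ⟨B2, hB2⟩ : ∃ B2 : ℝ, B2 = 15 / 2 * s ^ 4 / (s ^ 2) ^ (7 / 2 : ℝ) := ⟨_, rfl⟩
  have hmm : ∀ j : Fin M, Measurable fun y : R3 => mor s (y - X j) := fun j =>
    (mloc_mor_meas s).comp (measurable_id.sub_const _)
  have hmb : ∀ (j : Fin M) (y : R3), |mor s (y - X j)| ≤ B2 := fun j y => by
    rw [abs_of_nonneg (mloc_mor_nonneg s _), hB2]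
    exact mloc_mor_le hs _
  have hfin1 : ∑ j, Z j * one (fun y => mor s (y - X j)) u ≤
      z * (-(1 / 2) * one ll u + A * one (far1 X d) u) := by
    have h1 : ∑ j, Z j * one (fun y => mor s (y - X j)) u ≤
        z * ∑ j, one (fun y => mor s (y - X j)) u := by
      rw [Finset.mul_sum]
      refine Finset.sum_le_sum fun j _ => ?_
      exact mul_le_mul_of_nonneg_right (hZ j) (com_one_nonneg _ (fun y => mloc_mor_nonneg s _) u)
    refine h1.trans (mul_le_mul_of_nonneg_left ?_ hz)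
    rw [← mloc_sum hmm hmb hu, ← mloc_lin (B := max B1 Bf) (-(1 / 2)) A hllc.measurable
      (fun y => (hB1' y).trans (le_max_left _ _)) (mloc_far_meas X d)
      (fun y => (hfar y).trans (le_max_right _ _)) hu]
    apply INL_mono (B := max (M * B2) (1 / 2 * B1 + A * Bf))
    · exact Finset.measurable_sum _ fun j _ => hmm j
    · intro y
      refine le_trans ?_ (le_max_left _ _)
      refine (Finset.abs_sum_le_sum_abs _ _).trans ?_
      calc ∑ j, |mor s (y - X j)| ≤ ∑ _j : Fin M, B2 := Finset.sum_le_sum fun j _ => hmb j y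
        _ = M * B2 := by simp
    · exact (hllc.measurable.const_mul _).add ((mloc_far_meas X d).const_mul _)
    · intro y
      refine le_trans ?_ (le_max_right _ _)
      refine (abs_add_le _ _).trans ?_
      rw [abs_mul, abs_mul, abs_of_nonneg hA0, abs_neg, abs_of_nonneg (by norm_num : (0:ℝ) ≤ 1 / 2)]
      exact add_le_add (mul_le_mul_of_nonneg_left (hB1' y) (by norm_num))
        (mul_le_mul_of_nonneg_left (hfar y) hA0)
    · intro y
      rw [hll]
      exact hS.bi y
    · exact hu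
  rw [← hll] at hkid
  have hll2 : -(1 / 2) * one ll u ≤ 2 * |R| + A * pair u +
      2 * (A * z * (one (near2 X d) u + one (far1 X d) u / d)) + 2 * (A * kin u) := by
    have h1 := le_abs_self R
    rw [hkid] at hRid
    linarith
  have hFd : one (far1 X d) u / d ≤ 2 * CK / d / d * V := by
    calc one (far1 X d) u / d ≤ (2 * CK / d * V) / d := div_le_div_of_nonneg_right hF hd.le
      _ = _ := by ring
  have hatt2 : A * z * (one (near2 X d) u + one (far1 X d) u / d) ≤
      A * z * (CH * (kin u + 2 * V / d ^ 2) + 2 * CK / d / d * V) :=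
    mul_le_mul_of_nonneg_left (add_le_add hN2' hFd) (by positivity)
  have hAF : A * one (far1 X d) u ≤ A * (2 * CK / d * V) := mul_le_mul_of_nonneg_left hF hA0
  have hres0 := Real.sqrt_nonneg (resM X Z E u)
  have hzR : z * (2 * |R|) ≤ z * (2 * (Real.sqrt D * Real.sqrt (resM X Z E u))) :=
    mul_le_mul_of_nonneg_left (by linarith) hz
  calc ∑ j, Z j * one (fun y => mor s (y - X j)) u
      ≤ z * (-(1 / 2) * one ll u + A * one (far1 X d) u) := hfin1
    _ ≤ z * ((2 * |R| + A * pair u +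
        2 * (A * z * (CH * (kin u + 2 * V / d ^ 2) + 2 * CK / d / d * V)) + 2 * (A * kin u)) +
        A * (2 * CK / d * V)) := by
        apply mul_le_mul_of_nonneg_left _ hz
        linarith
    _ = z * (2 * |R|) + (z * A) * pair u + (z * (2 * A + 2 * A * z * CH)) * kin u +
        (z * (2 * A * z * (2 * CH / d ^ 2 + 2 * CK / d / d) + 2 * A * CK / d)) * V := by ring
    _ ≤ z * (2 * (Real.sqrt D * Real.sqrt (resM X Z E u))) + (z * A) * pair u +
        (z * (2 * A + 2 * A * z * CH)) * kin u +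
        (z * (2 * A * z * (2 * CH / d ^ 2 + 2 * CK / d / d) + 2 * A * CK / d)) * V := by
        linarith
    _ ≤ _ := by
        have c1 : 0 ≤ z * A := by positivity
        have c2 : 0 ≤ z * (2 * A + 2 * A * z * CH) := by positivity
        have c3 : 0 ≤ z * (2 * A * z * (2 * CH / d ^ 2 + 2 * CK / d / d) + 2 * A * CK / d) := by
          positivity
        nlinarith [mul_nonneg c1 hk0, mul_nonneg c1 hV0, mul_nonneg c2 hp0, mul_nonneg c2 hV0,
          mul_nonneg c3 hk0, mul_nonneg c3 hp0]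

end Pool.Agent.Helper95.PW
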