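import Pool.Agent.Helper33.PM.Com
import Pool.Agent.Helper95.PN.Stmts

/-! Row MTH. -/

set_option autoImplicit false

namespace Pool.Agent.Helper95.PW

open MeasureTheory Filter

theorem mth_nr (y : R3) : nr y = ‖(WithLp.toLp 2 y : EuclideanSpace ℝ (Fin 3))‖ := by
  rw [EuclideanSpace.norm_eq, Fin.sum_univ_three]
  unfold nr
  simp only [Real.norm_eq_abs, sq_abs]

theorem mth_tri (y a : R3) : nr y ≤ nr (y - a) + nr a := by
  rw [mth_nr, mth_nr, mth_nr]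
  have h : (WithLp.toLp 2 y : EuclideanSpace ℝ (Fin 3)) =
      WithLp.toLp 2 (y - a) + WithLp.toLp 2 a := by
    rw [← WithLp.toLp_add]
    congr 1
    abel
  rw [h]
  exact norm_add_le _ _

theorem mth_pd (m : Fin 3) (R : ℝ) (h : ∀ y, nr y ≤ R → gm m R y = y m) (y : R3)
    (hy : nr y < R) (i : Fin 3) : pd i (gm m R) y = if i = m then 1 else 0 := by
  have h1 : gm m R =ᶠ[nhds y] fun z => z m := by
    filter_upwards [(isOpen_lt innm_nr_cont continuous_const).mem_nhds hy] with z hz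
    exact h z (le_of_lt hz)
  unfold pd
  rw [h1.fderiv_eq]
  have h2 : fderiv ℝ (fun z : R3 => z m) y = ContinuousLinearMap.proj (R := ℝ) m :=
    (ContinuousLinearMap.proj (R := ℝ) (φ := fun _ : Fin 3 => ℝ) m).fderiv
  rw [h2]
  simp only [ContinuousLinearMap.proj_apply, Pi.single_apply]
  by_cases hi : i = m
  · rw [if_pos hi, if_pos hi.symm]
  · rw [if_neg hi, if_neg (fun h3 => hi h3.symm)]

theorem mth_scale {g : R3 → ℝ} {K R r : ℝ} (h : Scale g K R) (hK : 0 ≤ K) (hr : 0 < r)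
    (hrR : r ≤ R) : Scale g K r := by
  refine ⟨h.sm, h.cs, h.d1, fun i j y => (h.d2 i j y).trans ?_,
    fun i j l y => (h.d3 i j l y).trans ?_, fun i j l m y => (h.d4 i j l m y).trans ?_⟩
  · exact div_le_div_of_nonneg_left hK hr hrR
  · exact div_le_div_of_nonneg_left hK (by positivity) (pow_le_pow_left₀ hr.le hrR 2)
  · exact div_le_div_of_nonneg_left hK (by positivity) (pow_le_pow_left₀ hr.le hrR 3)

theorem mth_ind {n : ℕ} (u : Wf n) : one (ind Set.univ) u = n * sq u := by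
  unfold one sq
  rw [Finset.mul_sum]
  refine Finset.sum_congr rfl fun s _ => ?_
  rw [← integral_const_mul]
  congr 1
  funext x
  unfold ind
  simp

theorem mth_mom {n : ℕ} (G : Fin n → Fin 3 → Wf n) {B : ℝ}
    (h : ∀ m, sq (fun s x => ∑ k, G k m s x) ^ 2 ≤ B) : mom G ^ 2 ≤ 9 * B := by
  unfold mom
  rw [Fin.sum_univ_three]
  have h0 := h 0
  have h1 := h 1
  have h2 := h 2
  set a := sq (fun s x => ∑ k, G k 0 s x)
  set b := sq (fun s x => ∑ k, G k 1 s x)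
  set c := sq (fun s x => ∑ k, G k 2 s x)
  nlinarith [sq_nonneg (a - b), sq_nonneg (b - c), sq_nonneg (a - c)]

/-- the bound for one cut off function -/
theorem mth_one (hM : ST_MLOC) (hI : ST_INLJ) (hE0 : ST_E0) (hP : ST_POTB) (hC : ST_CUT)
    (hA : ST_APXM) (hL : ST_LMTM) (hQ : ST_QHM) (hT : ST_INTM) (z d : ℝ) (hz : 0 ≤ z)
    (hd : 0 < d) : ∃ C : ℝ, 0 < C ∧ ∀ (n M : ℕ)
    (X : Fin M → R3) (Z : Fin M → ℝ) (E : ℝ) (φ : Wf n) (G : Fin n → Fin 3 → Wf n), 1 ≤ n →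
    1 ≤ M → Nuc n Z → (∀ j, Z j ≤ z) → Sep X d → GroundM n X Z E φ G →
    ∀ (L : ℕ), 1 ≤ L → (∀ j, 2 * nr (X j) ≤ (L : ℝ) + 1) → ∀ m,
    sq (PG (gm m (L + 1)) φ G) ^ 2 ≤ C * n * (kinG G + n * (M : ℝ) ^ (2 / 3 : ℝ)) := by
  obtain ⟨C1, hC1, H1⟩ := hI
  obtain ⟨C2, hC2, H2⟩ := hM z d hz hd
  obtain ⟨C3, hC3, H3⟩ := hP z d hz hd
  obtain ⟨K, hK, HK, _⟩ := hC
  have hK0 : 0 < K := by linarith
  refine ⟨C1 * K ^ 4 * (2 * (5 + 6 * C3 + C2 * (4 + 3 * C3))), by positivity, ?_⟩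
  intro n M X Z E φ G hn hM1 hNuc hZz hSep hG L hL1 hLX m
  have hE : E ≤ 0 := hE0 n M X Z E hn hNuc.1 hG.low
  obtain ⟨u, hu⟩ := hA n M X Z E φ G hG
  obtain ⟨l1, l2, l3⟩ := hL n M X Z E φ G u hG hu
  obtain ⟨hsm, _, _, ⟨M0, hM0⟩, hres⟩ := hu
  have hn0 : (1:ℝ) ≤ n := by exact_mod_cast hn
  have hnp : (0:ℝ) < n := by linarith
  have hMr : (1:ℝ) ≤ M := by exact_mod_cast hM1
  have hLr : (1:ℝ) ≤ L := by exact_mod_cast hL1
  obtain ⟨T, hTdef⟩ : ∃ T : ℝ, T = kinG G := ⟨_, rfl⟩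
  have hT0 : 0 ≤ T := by
    rw [hTdef]
    exact Finset.sum_nonneg fun k _ => Finset.sum_nonneg fun i _ => com_sq_nonneg _
  obtain ⟨V, hV⟩ : ∃ V : ℝ, V = n * (M : ℝ) ^ (2 / 3 : ℝ) := ⟨_, rfl⟩
  have hM23 : (1:ℝ) ≤ (M : ℝ) ^ (2 / 3 : ℝ) := Real.one_le_rpow hMr (by norm_num)
  have hnV : (n:ℝ) ≤ V := by
    rw [hV]
    exact le_mul_of_one_le_right hnp.le hM23
  have hV1 : 1 ≤ V := by linarith
  rw [← hTdef, ← hV]
  rw [← hTdef] at l2
  obtain ⟨W, hW⟩ : ∃ W : ℝ, W = T + V := ⟨_, rfl⟩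
  rw [← hW]
  have hW1 : 1 ≤ W := by linarith
  obtain ⟨R, hR⟩ : ∃ R : ℝ, R = ((L : ℝ) + 1) / 2 := ⟨_, rfl⟩
  have hR1 : 1 ≤ R := by rw [hR]; linarith
  have hR0 : 0 < R := by linarith
  have hL0 : (0:ℝ) < (L : ℝ) + 1 := by linarith
  obtain ⟨C', hC', HI⟩ := H1 n M X Z E (fun m => gm m ((L : ℝ) + 1)) K R
    ((2 + 3 * C3) * W + |M0| + (1 + 3 * C3) * W) Set.univ hG.low hNuc.1 hK
    (fun m => mth_scale (HK m _ hL0).1 hK0.le hR0 (by rw [hR]; linarith)) hR0 isClosed_univ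
    (fun m y hy => absurd (Set.mem_univ y) hy)
    (fun m j y hy i => mth_pd m _ (HK m _ hL0).2.1 y (by
      have h1 := mth_tri y (X j)
      have h2 := hLX j
      rw [hR] at hy
      linarith) i)
  obtain ⟨C'', hC'', HM⟩ := H2 n M X Z E (T + 1) hM1 hSep hNuc.1 hZz
  have hev : ∀ᶠ j in atTop, sq (fun s => Pg (gm m ((L : ℝ) + 1)) (u j s)) ^ 2 ≤
      C1 * K ^ 4 * (2 * (5 + 6 * C3 + C2 * (4 + 3 * C3))) * n * W +
        (C1 * K ^ 4 * (2 * n * C'') + C') * Real.sqrt (resM X Z E (u j)) := by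
    have e1 : ∀ᶠ j in atTop, sq (u j) ≤ 2 :=
      l1.eventually_le_const (by norm_num : (1:ℝ) < 2)
    have e2 : ∀ᶠ j in atTop, resM X Z E (u j) ≤ 1 / 2 :=
      hres.eventually_le_const (by norm_num : (0:ℝ) < 1 / 2)
    have e3 : ∀ᶠ j in atTop, kin (u j) ≤ T + 1 :=
      l2.eventually_le_const (by linarith : T < T + 1)
    filter_upwards [e1, e2, e3] with j hj1 hj2 hj3
    have hQ1 := innm_Q_le_one hQ hT X Z E (u j) (hsm j).1 hE hj1 hj2
    have hPB := H3 n M X Z (u j) hM1 hSep hNuc.1 hZz (hsm j).1 hj1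
    rw [← hV] at hPB
    have p1 := com_kin_nonneg (u j)
    have p2 := com_pair_nonneg (u j)
    have p3 : 0 ≤ one (pot X Z) (u j) := com_one_nonneg _ (innm_pot_nonneg X Z hNuc.1) _
    have q1 : kin (u j) ≤ 2 * W := by linarith
    have q2 : one (pot X Z) (u j) ≤ 3 * C3 * W := by
      calc one (pot X Z) (u j) ≤ C3 * (kin (u j) + V) := hPB
        _ ≤ C3 * (3 * W) := by
            apply mul_le_mul_of_nonneg_left _ hC3.le
            linarith
        _ = 3 * C3 * W := by ring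
    have q3 : pair (u j) ≤ (1 + 3 * C3) * W := by
      unfold QM at hQ1
      nlinarith
    have hMa := le_abs_self M0
    have hMb := abs_nonneg M0
    have hMc := hM0 j
    have w1 : 0 ≤ C3 * W := by positivity
    obtain ⟨B1, hB1⟩ : ∃ B1 : ℝ, B1 = C2 * (kin (u j) + pair (u j) + V) +
      C'' * Real.sqrt (resM X Z E (u j)) := ⟨_, rfl⟩
    have hB10 : 0 ≤ B1 := by rw [hB1]; positivity
    have hB11 : B1 ≤ C2 * ((4 + 3 * C3) * W) + C'' * Real.sqrt (resM X Z E (u j)) := by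
      rw [hB1]
      apply add_le_add _ le_rfl
      apply mul_le_mul_of_nonneg_left _ hC2.le
      nlinarith
    have hmor := HM (u j) (hsm j).1 hj1 hj3
    rw [← hV, ← hB1] at hmor
    have hb := HI (u j) (hsm j).1 (hsm j).2 hj1 (by nlinarith) (by nlinarith) (by nlinarith)
      (by nlinarith) (by linarith) B1 d hB10 hd hmor m
    rw [mth_ind] at hb
    have hsq0 := com_sq_nonneg (u j)
    have s0 := Real.sqrt_nonneg (resM X Z E (u j))
    have hR2 : 1 ≤ R ^ 2 := one_le_pow₀ hR1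
    have hR4 : 1 ≤ R ^ 4 := one_le_pow₀ hR1
    have t1 : (kin (u j) + pair (u j) + one (pot X Z) (u j)) / R ^ 2 ≤ (3 + 6 * C3) * W := by
      calc (kin (u j) + pair (u j) + one (pot X Z) (u j)) / R ^ 2
          ≤ kin (u j) + pair (u j) + one (pot X Z) (u j) := div_le_self (by positivity) hR2
        _ ≤ (3 + 6 * C3) * W := by nlinarith
    have t2 : n * sq (u j) / R ^ 4 ≤ 2 * W := by
      calc n * sq (u j) / R ^ 4 ≤ n * sq (u j) := div_le_self (by positivity) hR4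
        _ ≤ n * 2 := mul_le_mul_of_nonneg_left hj1 hnp.le
        _ ≤ 2 * W := by linarith
    have t3 : (kin (u j) + pair (u j) + one (pot X Z) (u j)) / R ^ 2 + n * sq (u j) / R ^ 4 +
        B1 ≤ (5 + 6 * C3 + C2 * (4 + 3 * C3)) * W +
          C'' * Real.sqrt (resM X Z E (u j)) := by
      calc _ ≤ (3 + 6 * C3) * W + 2 * W + (C2 * ((4 + 3 * C3) * W) +
            C'' * Real.sqrt (resM X Z E (u j))) := add_le_add (add_le_add t1 t2) hB11
        _ = _ := by ring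
    have t0 : 0 ≤ (kin (u j) + pair (u j) + one (pot X Z) (u j)) / R ^ 2 +
        n * sq (u j) / R ^ 4 + B1 := by positivity
    have t4 : n * sq (u j) * ((kin (u j) + pair (u j) + one (pot X Z) (u j)) / R ^ 2 +
        n * sq (u j) / R ^ 4 + B1) ≤ (2 * n) * ((5 + 6 * C3 + C2 * (4 + 3 * C3)) * W +
          C'' * Real.sqrt (resM X Z E (u j))) := by
      apply mul_le_mul _ t3 t0 (by positivity)
      nlinarith
    have t5 := mul_le_mul_of_nonneg_left t4 (by positivity : (0:ℝ) ≤ C1 * K ^ 4)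
    calc sq (fun s => Pg (gm m ((L : ℝ) + 1)) (u j s)) ^ 2
        ≤ C1 * K ^ 4 * (n * sq (u j) *
          ((kin (u j) + pair (u j) + one (pot X Z) (u j)) / R ^ 2 +
          n * sq (u j) / R ^ 4 + B1)) + C' * Real.sqrt (resM X Z E (u j)) := hb
      _ ≤ C1 * K ^ 4 * ((2 * n) * ((5 + 6 * C3 + C2 * (4 + 3 * C3)) * W +
          C'' * Real.sqrt (resM X Z E (u j)))) + C' * Real.sqrt (resM X Z E (u j)) :=
          add_le_add t5 le_rfl
      _ = _ := by ring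
  have lim1 : Tendsto (fun j => sq (fun s => Pg (gm m ((L : ℝ) + 1)) (u j s)) ^ 2) atTop
      (nhds (sq (PG (gm m ((L : ℝ) + 1)) φ G) ^ 2)) :=
    (l3 _ (HK m _ hL0).1.sm (HK m _ hL0).1.cs).pow 2
  have lim2 : Tendsto (fun j => C1 * K ^ 4 * (2 * (5 + 6 * C3 + C2 * (4 + 3 * C3))) * n * W +
        (C1 * K ^ 4 * (2 * n * C'') + C') * Real.sqrt (resM X Z E (u j))) atTop
      (nhds (C1 * K ^ 4 * (2 * (5 + 6 * C3 + C2 * (4 + 3 * C3))) * n * W +
        (C1 * K ^ 4 * (2 * n * C'') + C') * Real.sqrt 0)) :=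
    tendsto_const_nhds.add ((hres.sqrt).const_mul _)
  have hfin := le_of_tendsto_of_tendsto lim1 lim2 hev
  rw [Real.sqrt_zero, mul_zero, add_zero] at hfin
  exact hfin

theorem st_MTH (hM : ST_MLOC) (hI : ST_INLJ) (hE0 : ST_E0) (hP : ST_POTB) (hLG : ST_LIMG)
    (hC : ST_CUT) (hA : ST_APXM) (hL : ST_LMTM) (hQ : ST_QHM) (hT : ST_INTM) : ST_MTH := by
  intro z d hz hd
  obtain ⟨C, hCp, H⟩ := mth_one hM hI hE0 hP hC hA hL hQ hT z d hz hd
  refine ⟨9 * C, by positivity, ?_⟩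
  intro n M X Z E φ G hn hM1 hNuc hZz hSep hG
  have hbd : ∀ m, sq (fun s x => ∑ k, G k m s x) ^ 2 ≤
      C * n * (kinG G + n * (M : ℝ) ^ (2 / 3 : ℝ)) := by
    intro m
    have hlim := (hLG n φ G m hG.lp hG.lpG).pow 2
    apply le_of_tendsto hlim
    obtain ⟨L0, hL0⟩ := exists_nat_ge (∑ j, 2 * nr (X j))
    filter_upwards [eventually_ge_atTop (max L0 1)] with L hL
    apply H n M X Z E φ G hn hM1 hNuc hZz hSep hG L (le_trans (le_max_right _ _) hL)
    intro j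
    have h1 : 2 * nr (X j) ≤ ∑ j, 2 * nr (X j) :=
      Finset.single_le_sum (f := fun j => 2 * nr (X j))
        (fun i _ => mul_nonneg (by norm_num) (com_nr_nonneg _)) (Finset.mem_univ j)
    have h2 : (L0 : ℝ) ≤ L := by exact_mod_cast le_trans (le_max_left _ _) hL
    linarith
  have h := mth_mom G hbd
  calc mom G ^ 2 ≤ 9 * (C * n * (kinG G + n * (M : ℝ) ^ (2 / 3 : ℝ))) := h
    _ = _ := by ring

end Pool.Agent.Helper95.PW
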